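import Mathlib
import Pool.Agent.Lib.helper22.H10d

namespace Pool.Agent.Results.MP_301441_lc.Ab

open Pool.Agent.Lib.H10 FreeMonoid

/-- the trace monoid -/
abbrev Tr {A : Type} (I : A → A → Prop) := PresentedMonoid fun u v : FreeMonoid A => ∃ a b, I a b ∧ u = of a * of b ∧ v = of b * of a

/-- the abelianisation map -/
def ab {A : Type} (I : A → A → Prop) : Tr I →* Multiplicative (Multiset A) :=
  PresentedMonoid.lift (fun a => Multiplicative.ofAdd {a}) fun _ _ ⟨_, _, _, h, k⟩ => by
    simp only [h, k, map_mul, mul_comm]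

def cn (i : Bool) : FreeMonoid Bool →* Multiplicative ℕ := lift fun j => Multiplicative.ofAdd (if j = i then 1 else 0)

def rl : Bool → FreeMonoid Bool → FreeMonoid Bool → Prop
  | false, x, y => x = y
  | true, x, y => ∀ i, cn i x = cn i y

theorem cm {U : FreeMonoid Bool} (h0 : U.toList ≠ []) (h : ∀ i < U.toList.length,
    U.toList.take i ++ U.toList = U.toList ++ U.toList.take i → i = 0) (x : FreeMonoid Bool) : x * U = U * x ↔ ∃ k, x = U ^ k := by
  refine ⟨fun e => ?_, fun ⟨k, e⟩ => e ▸ pow_mul_comm' ..⟩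
  obtain ⟨k, e⟩ := comm_pow h0 h x.toList (congrArg toList e)
  refine ⟨k, toList.injective (e.trans ?_)⟩
  clear e
  induction k <;> simp_all [pow_succ', List.replicate_succ]

theorem free : ¬ ComputablePred fun E : List (Bool × List (Bool ⊕ ℕ) × List (Bool ⊕ ℕ)) => ∃ σ, Sol of rl σ E := by
  have r : ∀ i k, (of i ^ k : FreeMonoid Bool).toList = List.replicate k i := fun i k => by
    induction k <;> simp_all [pow_succ', List.replicate_succ]
  have c1 := fun i => cm (U := of i) (by simp) (by simp)
  have c2 := fun x => cm (U := of false ^ x * of true) (by simp) fun i hi e => by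
    rcases i with _ | i
    · rfl
    have hi : i + 1 ≤ x := by simp [r] at hi; omega
    have := congrArg (·.reverse.head?) e
    rw [toList_mul, r, List.take_append_of_le_length (by simpa), List.take_replicate, min_eq_left hi] at this
    simp [List.replicate_succ'] at this
  have eq : ∀ {γ} {f g : (γ → FreeMonoid Bool) → FreeMonoid Bool}, TD of f → TD of g → SD of rl fun v => f v = g v := SD.atom false
  refine und_sys false (fun _ _ => .rfl) [false] (a := of false) (by simp) (fun m n e => ?_) (.of_iff ?_ fun v => c1 false (v ()))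
    (Mu := fun X Y Z => Z * of false = of false * Z ∧ ∃ w w' B, w * (X * of true) = X * of true * w ∧
      w' * (of false * of true) = of false * of true * w' ∧ B * of true = of true * B ∧ rl true w (Z * B) ∧ rl true w' (Y * B))
    ?_ fun x y Z => ?_
  · simpa [r] using congrArg (·.toList.length) e
  · repeat' first | apply eq | apply TD.var | apply TD.mul | apply TD.con
  · repeat' first | apply SD.ex | apply SD.and | apply eq | apply SD.atom | apply TD.var | apply TD.mul | apply TD.con
  have c3 := c2 1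
  simp only [pow_one] at c3
  simp only [c1, c2, c3]
  constructor
  · rintro ⟨⟨z, rfl⟩, _, _, _, ⟨j, rfl⟩, ⟨i, rfl⟩, ⟨k, rfl⟩, h, h'⟩
    have a := fun i => congrArg Multiplicative.toAdd (h i)
    have b := fun i => congrArg Multiplicative.toAdd (h' i)
    simp [cn] at a b
    rw [← a.1, a.2, ← b.1, b.2, mul_comm]
  · rintro rfl
    refine ⟨⟨_, rfl⟩, _, _, _, ⟨y, rfl⟩, ⟨y, rfl⟩, ⟨y, rfl⟩, ?_, ?_⟩ <;> intro i <;> apply Multiplicative.toAdd.injective <;>
      cases i <;> simp [cn, mul_comm]

theorem result (n : ℕ) (I : Fin n → Fin n → Prop) (a b : Fin n) (hab : a ≠ b) (h1 : ¬ I a b) (h2 : ¬ I b a) :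
    ¬ ComputablePred fun S : List (List (Fin n ⊕ ℕ) × List (Fin n ⊕ ℕ)) × List (List (Fin n ⊕ ℕ) × List (Fin n ⊕ ℕ)) =>
      ∃ σ : ℕ → Tr I, (∀ e ∈ S.1, (e.1.map (Sum.elim (PresentedMonoid.of _) σ)).prod = (e.2.map (Sum.elim (PresentedMonoid.of _) σ)).prod) ∧
        ∀ e ∈ S.2, (e.1.map (Sum.elim (fun x => {x}) fun i => (ab I (σ i)).toAdd)).sum =
          (e.2.map (Sum.elim (fun x => {x}) fun i => (ab I (σ i)).toAdd)).sum := fun h => free <| by
  let φ : Bool → Fin n := fun i => cond i b a
  let ι : FreeMonoid Bool →* Tr I := lift fun i => PresentedMonoid.of _ (φ i)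
  let r : Tr I →* FreeMonoid Bool := PresentedMonoid.lift (fun x => if x = a then of false else if x = b then of true else 1)
    fun _ _ ⟨x, y, h, e, f⟩ => by
      simp only [e, f, map_mul, lift_eval_of]
      split_ifs <;> simp_all
  let m : List (Bool ⊕ ℕ) → List (Fin n ⊕ ℕ) := List.map (Sum.map φ id)
  let F : Bool → List (Bool × List (Bool ⊕ ℕ) × List (Bool ⊕ ℕ)) → List (List (Fin n ⊕ ℕ) × List (Fin n ⊕ ℕ)) :=
    fun k E => (E.filter fun e => decide (e.1 = k)).map fun e => (m e.2.1, m e.2.2)
  have p0 : Primrec (Sum.map φ id : Bool ⊕ ℕ → Fin n ⊕ ℕ) := (Primrec.sumCasesOn .id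
    (Primrec.sumInl.comp ((Primrec.dom_finite φ).comp .snd)).to₂ (Primrec.sumInr.comp .snd).to₂).of_eq (by rintro (_ | _) <;> rfl)
  have pm : Primrec m := Primrec.list_map .id (p0.comp .snd).to₂
  have pF : ∀ k, Primrec (F k) := fun k => Primrec.list_map (Primrec.listFilter (Primrec.eq.comp .fst (.const k)))
    ((pm.comp (Primrec.fst.comp (Primrec.snd.comp .snd))).pair (pm.comp (Primrec.snd.comp (Primrec.snd.comp .snd)))).to₂
  obtain ⟨f, hf, e⟩ := ComputablePred.computable_iff.1 h
  refine ComputablePred.computable_iff.2 ⟨_, hf.comp ((pF false).pair (pF true)).to_comp, funext fun E => ?_⟩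
  rw [← congrFun e]
  have s : ∀ (σ : ℕ → Tr I) u, (List.map (Sum.elim (fun x => {x}) fun i => (ab I (σ i)).toAdd) u).sum =
      (ab I (u.map (Sum.elim (PresentedMonoid.of _) σ)).prod).toAdd := fun σ u => by
    induction u with
    | nil => simp
    | cons x u ih => rw [List.map_cons, List.map_cons, List.sum_cons, List.prod_cons, map_mul, toAdd_mul, ih]; cases x <;> rfl
  have e1 : ∀ (σ : ℕ → FreeMonoid Bool) u, ((m u).map (Sum.elim (PresentedMonoid.of _) (ι ∘ σ))).prod = ι (ev of σ u) := fun σ u => by
    induction u with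
    | nil => simp [m, ev]
    | cons x u ih => cases x <;> simp_all [m, ev, ι]
  have e2 : ∀ (σ : ℕ → Tr I) u, r ((m u).map (Sum.elim (PresentedMonoid.of _) σ)).prod = ev of (r ∘ σ) u := fun σ u => by
    induction u with
    | nil => simp [m, ev]
    | cons x u ih => rcases x with (_ | _) | _ <;> simp_all [m, ev, r, φ, hab.symm]
  have e3 : ∀ x, (ab I (ι x)).toAdd = (cn false x).toAdd • {a} + (cn true x).toAdd • {b} := fun x => by
    induction x using FreeMonoid.inductionOn' with
    | one => simp
    | of_mul i x ih => cases i <;> simp [ih, add_nsmul] <;> simp [ι, ab, cn, φ] <;> abel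
  have e4 : ∀ i x, (cn i (r x)).toAdd = (ab I x).toAdd.count (φ i) := fun i x => by
    induction x using PresentedMonoid.inductionOn with | h x =>
    induction x using FreeMonoid.inductionOn' with
    | one => simp
    | of_mul j x ih =>
      simp only [map_mul, toAdd_mul, ih, Multiset.count_add]
      congr 1
      change (cn i (if j = a then of false else if j = b then of true else 1)).toAdd = Multiset.count _ {j}
      rw [Multiset.count_singleton]
      by_cases p : j = a
      · cases i <;> simp [p, φ, cn, hab.symm]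
      by_cases q : j = b <;> cases i <;> simp [p, q, φ, cn, hab, hab.symm, Ne.symm p] <;> exact Ne.symm q
  simp only [s, F, List.forall_mem_map, List.mem_filter, decide_eq_true_eq]
  refine propext ⟨fun ⟨σ, k⟩ => ⟨ι ∘ σ, fun x hx => ?_, fun x hx => ?_⟩, fun ⟨σ, k, l⟩ => ⟨r ∘ σ, fun x hx => ?_⟩⟩
  · have := k x hx.1
    rw [hx.2] at this
    rw [e1, e1, show ev of σ x.2.1 = _ from this]
  · have := k x hx.1
    rw [hx.2] at this
    rw [e1, e1, e3, e3, this false, this true]
  · rw [← e2, ← e2]
    cases q : x.1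
    · exact congrArg r (k x ⟨hx, q⟩)
    · exact fun i => Multiplicative.toAdd.injective (by rw [e4, e4, l x ⟨hx, q⟩])

end Pool.Agent.Results.MP_301441_lc.Ab
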